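import Pool.Agent.Locked.Main

/-!
# A locked open unit chain in three-space

An open unit chain with 18 links in `ℝ³` has a simple configuration which cannot be straightened.
-/

set_option autoImplicit false

namespace Pool.Agent.Results.MP_1e88d9_co.LockedUnitChain

open Set

/-- three-dimensional Euclidean space -/
abbrev E3 := EuclideanSpace ℝ (Fin 3)

/-- positions of the `n + 1` vertices of an open chain with `n` links -/
abbrev Config (n : ℕ) := Fin (n + 1) → E3

/-- the `i`-th link -/
def link {n : ℕ} (q : Config n) (i : Fin n) : Set E3 := segment ℝ (q i.castSucc) (q i.succ)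

/-- all links have length one -/
def IsUnit {n : ℕ} (q : Config n) : Prop := ∀ i : Fin n, dist (q i.castSucc) (q i.succ) = 1

/-- non-adjacent links are disjoint, adjacent links meet only in their common vertex -/
def IsSimple {n : ℕ} (q : Config n) : Prop :=
  (∀ i j : Fin n, i.val + 1 < j.val → Disjoint (link q i) (link q j)) ∧
    ∀ i j : Fin n, i.val + 1 = j.val → link q i ∩ link q j = {q j.castSucc}

/-- the vertices are collinear and in order along a line -/
def IsStraight {n : ℕ} (q : Config n) : Prop :=
  ∃ (x u : E3) (s : Fin (n + 1) → ℝ), StrictMono s ∧ ∀ i, q i = x + s i • u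

/-- a motion: a continuous path of simple configurations of the unit chain, ending in a straight
configuration -/
def CanBeStraightened {n : ℕ} (q : Config n) : Prop :=
  ∃ γ : C(unitInterval, Config n), γ 0 = q ∧ (∀ t, IsUnit (γ t) ∧ IsSimple (γ t)) ∧
    IsStraight (γ 1)

/-- a sequence extended by its last value -/
private noncomputable def ext {n : ℕ} (q : Config n) : ℕ → E3 :=
  fun i => q ⟨min i n, by omega⟩

private theorem ext_castSucc {n : ℕ} (q : Config n) (i : Fin n) : ext q i.val = q i.castSucc := by
  unfold ext
  congr 1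
  ext
  simp

private theorem ext_succ {n : ℕ} (q : Config n) (i : Fin n) : ext q (i.val + 1) = q i.succ := by
  unfold ext
  congr 1
  ext
  have := i.isLt
  simp only [Fin.val_succ]
  omega

private theorem straight_unit {n : ℕ} (q : Config n) (hn : 0 < n) (hu : IsUnit q)
    (hs : IsStraight q) : ∃ v : E3, ‖v‖ = 1 ∧ ∀ i, i ≤ n → ext q i = ext q 0 + (i : ℝ) • v := by
  obtain ⟨x, u, s, hmono, hq⟩ := hs
  have hstep : ∀ i : Fin n, (s i.succ - s i.castSucc) * ‖u‖ = 1 := by
    intro i
    have h1 := hu i
    rw [dist_comm, dist_eq_norm, hq, hq] at h1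
    have h2 : x + s i.succ • u - (x + s i.castSucc • u) = (s i.succ - s i.castSucc) • u := by
      module
    rw [h2, norm_smul, Real.norm_eq_abs, abs_of_pos] at h1
    · exact h1
    · have := hmono (Fin.castSucc_lt_succ (i := i))
      linarith
  have hu0 : ‖u‖ ≠ 0 := by
    intro h
    have := hstep ⟨0, hn⟩
    rw [h, mul_zero] at this
    exact zero_ne_one this
  refine ⟨(‖u‖)⁻¹ • u, by rw [norm_smul, norm_inv, norm_norm, inv_mul_cancel₀ hu0], ?_⟩
  intro i
  induction i with
  | zero => intro _; simp
  | succ i ih =>
    intro hi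
    have h1 := ih (by omega)
    have h2 : ext q (i + 1) = ext q i + (‖u‖)⁻¹ • u := by
      have e1 := ext_castSucc q ⟨i, by omega⟩
      have e2 := ext_succ q ⟨i, by omega⟩
      have h3 := hstep ⟨i, by omega⟩
      simp only at e1 e2
      rw [e1, e2, hq, hq]
      have h4 : s (Fin.succ ⟨i, by omega⟩) = s (Fin.castSucc ⟨i, by omega⟩) + (‖u‖)⁻¹ := by
        have h5 : s (Fin.succ ⟨i, by omega⟩) - s (Fin.castSucc ⟨i, by omega⟩) = (‖u‖)⁻¹ :=
          eq_inv_of_mul_eq_one_left h3
        linarith
      rw [h4, add_smul, add_assoc]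
    rw [h2, h1]
    push_cast
    module

/-- There is a locked simple configuration of the open unit chain with `18` links in `ℝ³`. -/
theorem result : ∃ q : Config 18, IsUnit q ∧ IsSimple q ∧ ¬ CanBeStraightened q := by
  have key : ∀ i : ℕ, i ≤ 18 → ext (n := 18) (fun i => Locked.lockedChain i.val) i =
      Locked.lockedChain i := by
    intro i hi
    simp [ext, min_eq_left hi]
  refine ⟨fun i => Locked.lockedChain i.val, ?_, ⟨?_, ?_⟩, ?_⟩
  · intro i
    exact Locked.locked_unit i.val i.isLt
  · intro i j hij
    exact Locked.locked_disj i.val j.val hij j.isLt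
  · intro i j hij
    have h := Locked.locked_adj i.val (by have := j.isLt; omega)
    unfold link
    simp only [Fin.val_castSucc, Fin.val_succ, ← hij]
    exact h
  · rintro ⟨γ, h0, hs, h1⟩
    obtain ⟨v, hv, hv1⟩ := straight_unit _ (by norm_num) (hs 1).1 h1
    refine Locked.locked_main (fun t => ext (γ (Set.projIcc 0 1 zero_le_one t))) ?_ ?_ ?_ v hv ?_
    · refine continuous_pi fun i => ?_
      exact (continuous_apply _).comp (γ.continuous.comp continuous_projIcc)
    · intro i hi
      have e : Set.projIcc (0 : ℝ) 1 zero_le_one 0 = 0 := by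
        simp [Set.projIcc_left]
      simp only [e, h0]
      exact key i hi
    · intro t _
      obtain ⟨hu, hsim⟩ := hs (Set.projIcc 0 1 zero_le_one t)
      constructor
      · intro i hi
        have h := hu ⟨i, hi⟩
        rw [← ext_castSucc (γ _), ← ext_succ (γ _)] at h
        exact h
      · intro i j hij hj
        have h := hsim.1 ⟨i, by omega⟩ ⟨j, hj⟩ hij
        unfold link at h
        rw [← ext_castSucc (γ _), ← ext_succ (γ _), ← ext_castSucc (γ _), ← ext_succ (γ _)] at h
        exact h
    · intro i hi
      have e : Set.projIcc (0 : ℝ) 1 zero_le_one 1 = 1 := by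
        simp [Set.projIcc_right]
      simp only [e]
      exact hv1 i hi

end Pool.Agent.Results.MP_1e88d9_co.LockedUnitChain
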